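import Pool.Agent.Helper68.Rec.Conv

/-!
A parameter `B < √2 - 1` for which every positive solution of
`y (n+1) = (B + y n) / (B + y (n-2))` converges to the equilibrium or to a periodic solution.
-/

namespace Pool.Agent.Results.MP_7a141f_an.EverySolutionConverges

open Filter Topology Helper68.Rec

theorem result : ∃ B : ℝ, 0 < B ∧ B < Real.sqrt 2 - 1 ∧
    ∀ y : ℕ → ℝ, (∀ n, 0 < y n) → (∀ n, y (n + 3) = (B + y (n + 2)) / (B + y n)) →
      (Tendsto y atTop (𝓝 1) ∨
        ∃ p : ℕ → ℝ, (∀ n, 0 < p n) ∧ (∀ n, p (n + 3) = (B + p (n + 2)) / (B + p n)) ∧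
          (∃ k : ℕ, 1 ≤ k ∧ ∀ n, p (n + k) = p n) ∧
          Tendsto (fun n => |y n - p n|) atTop (𝓝 0)) := by
  have hL := LL_ge
  refine ⟨Real.exp (-LL), Real.exp_pos _, ?_, ?_⟩
  · have h1 : Real.exp (-LL) ≤ Real.exp (-3) := Real.exp_le_exp.mpr (by linarith)
    have h2 := exp_neg_3
    have h3 : (1.4 : ℝ) < Real.sqrt 2 := by
      rw [Real.lt_sqrt (by norm_num)]
      norm_num
    linarith
  intro y hy hrec
  have hB := Real.exp_pos (-LL)
  obtain ⟨B, hBdef⟩ : ∃ B : ℝ, B = Real.exp (-LL) := ⟨_, rfl⟩
  rw [← hBdef] at hB hrec ⊢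
  have hlogB : Real.log B = -LL := by rw [hBdef, Real.log_exp]
  -- logarithmic coordinates
  obtain ⟨U, hUdef⟩ : ∃ U : ℕ → ℝ, U = fun n => Real.log (y n / B) := ⟨_, rfl⟩
  have hyU : ∀ n, y n = B * Real.exp (U n) := by
    intro n
    rw [hUdef]
    simp only
    rw [Real.exp_log (div_pos (hy n) hB)]
    field_simp
  have hadd : ∀ x : ℝ, B + B * Real.exp x = B * Real.exp (sp x) := by
    intro x
    rw [exp_sp]
    ring
  have hU : Sol LL U := by
    intro n
    have h1 := hrec n
    rw [hyU (n + 3), hyU (n + 2), hyU n, hadd, hadd] at h1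
    have h2 : Real.exp (U (n + 3)) = Real.exp (LL + sp (U (n + 2)) - sp (U n)) := by
      have h3 : B * Real.exp (sp (U (n + 2))) / (B * Real.exp (sp (U n))) =
          Real.exp (sp (U (n + 2)) - sp (U n)) := by
        rw [Real.exp_sub]
        field_simp
      rw [h3] at h1
      have h4 : Real.exp LL * B = 1 := by
        rw [hBdef, ← Real.exp_add]
        simp
      rw [show LL + sp (U (n + 2)) - sp (U n) = LL + (sp (U (n + 2)) - sp (U n)) by ring,
        Real.exp_add, ← h1, ← mul_assoc, h4, one_mul]
    exact Real.exp_injective h2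
  rcases equi_or_good hU LL_ge' with heq | ⟨m, h0, h1, h2⟩
  · left
    have h3 : Tendsto (fun n => B * Real.exp (U n)) atTop (𝓝 (B * Real.exp LL)) :=
      ((Real.continuous_exp.tendsto LL).comp heq).const_mul B
    have h4 : B * Real.exp LL = 1 := by
      rw [hBdef, ← Real.exp_add]
      simp
    rw [h4] at h3
    have h5 : y = fun n => B * Real.exp (U n) := funext hyU
    rw [h5]
    exact h3
  · right
    obtain ⟨n0, hsec⟩ := reach hU m h0 h1 h2
    obtain ⟨P, hP, hper, hconv⟩ := conv hU hsec
    refine ⟨fun n => B * Real.exp (P n), fun n => by positivity, ?_, ⟨329, by norm_num, ?_⟩, ?_⟩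
    · intro n
      show B * Real.exp (P (n + 3)) = (B + B * Real.exp (P (n + 2))) / (B + B * Real.exp (P n))
      rw [hadd, hadd, hP n]
      have h4 : Real.exp LL * B = 1 := by
        rw [hBdef, ← Real.exp_add]
        simp
      rw [show LL + sp (P (n + 2)) - sp (P n) = LL + (sp (P (n + 2)) - sp (P n)) by ring,
        Real.exp_add, ← mul_assoc, mul_comm B, h4, one_mul, Real.exp_sub]
      field_simp
    · intro n
      show B * Real.exp (P (n + 329)) = B * Real.exp (P n)
      rw [hper]
    · -- bounded times null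
      have hbd : ∃ K : ℝ, ∀ n, |B * Real.exp (P n)| ≤ K := by
        have hper' : ∀ i r, P (r + 329 * i) = P r := by
          intro i
          induction i with
          | zero => intro r; simp
          | succ i ih =>
            intro r
            rw [show r + 329 * (i + 1) = r + 329 * i + 329 by ring, hper, ih]
        refine ⟨∑ r ∈ Finset.range 329, |B * Real.exp (P r)|, fun n => ?_⟩
        have h3 : P n = P (n % 329) := by
          conv_lhs => rw [← Nat.mod_add_div n 329]
          exact hper' _ _
        rw [h3]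
        exact Finset.single_le_sum (f := fun r => |B * Real.exp (P r)|)
          (fun _ _ => abs_nonneg _) (Finset.mem_range.mpr (Nat.mod_lt n (by norm_num)))
      obtain ⟨K, hK⟩ := hbd
      have h3 : Tendsto (fun n => |Real.exp (U n - P n) - 1|) atTop (𝓝 0) := by
        have h4 : Tendsto (fun n => Real.exp (U n - P n) - 1) atTop (𝓝 (Real.exp 0 - 1)) :=
          ((Real.continuous_exp.tendsto 0).comp hconv).sub_const 1
        have h5 := h4.abs
        simpa using h5
      have h6 := h3.const_mul K
      rw [mul_zero] at h6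
      refine squeeze_zero (fun _ => abs_nonneg _) (fun n => ?_) h6
      have h7 : y n - B * Real.exp (P n) = B * Real.exp (P n) * (Real.exp (U n - P n) - 1) := by
        rw [hyU n, Real.exp_sub]
        field_simp
      show |y n - B * Real.exp (P n)| ≤ K * |Real.exp (U n - P n) - 1|
      rw [h7, abs_mul]
      exact mul_le_mul_of_nonneg_right (hK n) (abs_nonneg _)

end Pool.Agent.Results.MP_7a141f_an.EverySolutionConverges
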